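import Pool.Agent.H15.G.R_seed8.TH176.Nag.Order

set_option autoImplicit false

namespace Pool.Agent.TH819.NagD

open Finset Pool.Agent.TH176.Nag

section gs

theorem gs_succ (N : ℤ) (k : ℕ) : gs N (k + 2) = N * gs N (k + 1) - gs N k := rfl

theorem gs_mono {N : ℤ} (hN : 2 ≤ N) (k : ℕ) : 0 < gs N k ∧ gs N k ≤ gs N (k + 1) := by
  induction k with
  | zero => exact ⟨by norm_num [gs], by norm_num [gs]⟩
  | succ k ih =>
    refine ⟨by linarith [ih.1, ih.2], ?_⟩
    rw [gs_succ]
    nlinarith [ih.1, ih.2]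

end gs

section res

variable {K : Type*} [Field K]

/-- weight of an exponent -/
def wt (p q : ℤ) (m : ℤ × ℤ) : ℤ := m.1 * p + m.2 * q

theorem wt_add (p q : ℤ) (m m' : ℤ × ℤ) : wt p q (m + m') = wt p q m + wt p q m' := by
  unfold wt
  simp only [Prod.fst_add, Prod.snd_add]
  ring

/-- all weights are congruent to `r` -/
def Res (N p q : ℤ) (f : Lau K) (r : ℤ) : Prop := ∀ m, f.coeff m ≠ 0 → N ∣ (r - wt p q m)

theorem Res.congr {N p q : ℤ} {f : Lau K} {r r' : ℤ} (h : Res N p q f r) (hr : N ∣ r' - r) :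
    Res N p q f r' := by
  intro m hm
  have h1 := h m hm
  have h2 := dvd_add hr h1
  have e : r' - r + (r - wt p q m) = r' - wt p q m := by ring
  rwa [e] at h2

theorem Res.add {N p q : ℤ} {f g : Lau K} {r : ℤ} (hf : Res N p q f r) (hg : Res N p q g r) :
    Res N p q (f + g) r := by
  intro m hm
  by_cases h : f.coeff m = 0
  · apply hg m
    intro h2
    apply hm
    rw [AddMonoidAlgebra.coeff_add, Finsupp.add_apply, h, h2, add_zero]
  · exact hf m h

theorem Res.neg {N p q : ℤ} {f : Lau K} {r : ℤ} (hf : Res N p q f r) : Res N p q (-f) r := by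
  intro m hm
  apply hf m
  intro h
  apply hm
  rw [AddMonoidAlgebra.coeff_neg, Finsupp.neg_apply, h, neg_zero]

theorem Res.sub {N p q : ℤ} {f g : Lau K} {r : ℤ} (hf : Res N p q f r) (hg : Res N p q g r) :
    Res N p q (f - g) r := by
  rw [sub_eq_add_neg]
  exact hf.add hg.neg

theorem Res.zero (N p q : ℤ) (r : ℤ) : Res N p q (0 : Lau K) r := by
  intro m hm
  exact absurd rfl hm

theorem Res.mul {N p q : ℤ} {f g : Lau K} {r s : ℤ} (hf : Res N p q f r) (hg : Res N p q g s) :
    Res N p q (f * g) (r + s) := by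
  classical
  intro m hm
  have h1 : m ∈ (f * g).coeff.support := Finsupp.mem_support_iff.2 hm
  have h2 := AddMonoidAlgebra.support_coeff_mul_subset f g h1
  rw [Finset.mem_add] at h2
  obtain ⟨a, ha, b, hb, rfl⟩ := h2
  have h3 := hf a (Finsupp.mem_support_iff.1 ha)
  have h4 := hg b (Finsupp.mem_support_iff.1 hb)
  rw [wt_add]
  have h5 := dvd_add h3 h4
  have e : r - wt p q a + (s - wt p q b) = r + s - (wt p q a + wt p q b) := by ring
  rwa [e] at h5

theorem Res.mon (N p q : ℤ) (m : ℤ × ℤ) : Res N p q (mon K m) (wt p q m) := by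
  classical
  intro m' hm'
  have h : m = m' := by
    by_contra h
    apply hm'
    unfold Pool.Agent.TH176.Nag.mon
    rw [AddMonoidAlgebra.coeff_single, Finsupp.single_apply, if_neg h]
  rw [h, sub_self]
  exact dvd_zero _

theorem Res.one (N p q : ℤ) : Res N p q (1 : Lau K) 0 := by
  have h := Res.mon (K := K) N p q 0
  rw [mon_zero] at h
  have e : wt p q 0 = 0 := by simp [wt]
  rwa [e] at h

theorem Res.pow {N p q : ℤ} {f : Lau K} {r : ℤ} (hf : Res N p q f r) (n : ℕ) :
    Res N p q (f ^ n) (n * r) := by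
  induction n with
  | zero => simpa using Res.one N p q
  | succ n ih =>
    rw [pow_succ]
    have h := ih.mul hf
    have e : (n : ℤ) * r + r = ((n + 1 : ℕ) : ℤ) * r := by push_cast; ring
    rwa [e] at h

theorem Res.natCast_mul {N p q : ℤ} {f : Lau K} {r : ℤ} (hf : Res N p q f r) (n : ℕ) :
    Res N p q ((n : Lau K) * f) r := by
  induction n with
  | zero => simpa using Res.zero N p q r
  | succ n ih =>
    have e : ((n + 1 : ℕ) : Lau K) * f = (n : Lau K) * f + f := by push_cast; ring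
    rw [e]
    exact ih.add hf

theorem Res.sum {N p q : ℤ} {κ : Type*} (s : Finset κ) (F : κ → Lau K) {r : ℤ}
    (h : ∀ k ∈ s, Res N p q (F k) r) : Res N p q (∑ k ∈ s, F k) r := by
  classical
  induction s using Finset.induction_on with
  | empty => simpa using Res.zero N p q r
  | insert a s ha ih =>
    rw [Finset.sum_insert ha]
    exact (h a (Finset.mem_insert_self a s)).add (ih fun k hk => h k (Finset.mem_insert_of_mem hk))

/-- the residues of a quadruple -/
def RQ (N p q : ℤ) (z : Lau K × Lau K × Lau K × Lau K) (r s : ℤ) : Prop :=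
  Res N p q z.1 (-s) ∧ Res N p q z.2.1 r ∧ Res N p q z.2.2.1 s ∧ Res N p q z.2.2.2 (-r)

theorem RQ.stp {N : ℕ} (hN : 1 ≤ N) {p q : ℤ} {z : Lau K × Lau K × Lau K × Lau K} {r s : ℤ}
    (h : RQ (N : ℤ) p q z r s) : RQ (N : ℤ) p q (stp N z) (-s) r := by
  obtain ⟨h0, h1, h2, h3⟩ := h
  refine ⟨?_, h0, h1, ?_⟩
  · apply Res.sub
    · refine ((h0.pow N).mul h3).congr ⟨s, by ring⟩
    · unfold pN
      refine Res.sum _ _ fun k _ => ?_
      refine (((h1.pow (N * (k + 1) - 1)).natCast_mul _)).congr ⟨-((k : ℤ) + 1) * r, ?_⟩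
      have : ((N * (k + 1) - 1 : ℕ) : ℤ) = (N : ℤ) * (k + 1) - 1 := by
        have h5 : 1 ≤ N * (k + 1) := Nat.one_le_iff_ne_zero.2 (by positivity)
        push_cast [Nat.cast_sub h5]
        ring
      rw [this]
      ring
  · rw [neg_neg]
    exact h2

theorem RQ.congr {N p q : ℤ} {z : Lau K × Lau K × Lau K × Lau K} {r s r' s' : ℤ}
    (h : RQ N p q z r s) (hr : N ∣ r' - r) (hs : N ∣ s' - s) : RQ N p q z r' s' := by
  obtain ⟨h0, h1, h2, h3⟩ := h
  refine ⟨h0.congr ?_, h1.congr hr, h2.congr hs, h3.congr ?_⟩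
  · have := hs.neg_right
    have e : -s' - -s = -(s' - s) := by ring
    rwa [e]
  · have := hr.neg_right
    have e : -r' - -r = -(r' - r) := by ring
    rwa [e]

theorem zL_RQ {N : ℕ} (p q : ℤ) : RQ (N : ℤ) p q (zL K N) p q := by
  unfold zL
  refine ⟨?_, ?_, ?_, ?_⟩
  · have h1 : Res (N : ℤ) p q (1 + mon K ((N : ℤ), 0)) 0 :=
      (Res.one _ _ _).add ((Res.mon _ _ _ _).congr ⟨-p, by simp [wt]⟩)
    have h2 := (Res.mon (K := K) (N : ℤ) p q (0, -1)).mul h1
    refine h2.congr ⟨0, by simp [wt]⟩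
  · refine (Res.mon (K := K) (N : ℤ) p q (1, 0)).congr ⟨0, by simp [wt]⟩
  · refine (Res.mon (K := K) (N : ℤ) p q (0, 1)).congr ⟨0, by simp [wt]⟩
  · have h1 : Res (N : ℤ) p q (1 + mon K (0, (N : ℤ))) 0 :=
      (Res.one _ _ _).add ((Res.mon _ _ _ _).congr ⟨-q, by simp [wt]⟩)
    have h2 := (Res.mon (K := K) (N : ℤ) p q (-1, 0)).mul h1
    refine h2.congr ⟨0, by simp [wt]⟩

theorem res_iter {N : ℕ} (hN : 1 ≤ N) (t : ℕ) (j : ℕ) (hj : j ≤ t) :
    RQ (N : ℤ) (gs N t) (gs N (t + 1)) ((stp N)^[j] (zL K N)) (gs N (t - j)) (gs N (t + 1 - j)) := by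
  induction j with
  | zero => exact zL_RQ _ _
  | succ j ih =>
    have h1 := (ih (by omega)).stp hN
    rw [Function.iterate_succ_apply']
    obtain ⟨k, rfl⟩ : ∃ k, t = k + (j + 1) := ⟨t - (j + 1), by omega⟩
    have e1 : k + (j + 1) - j = k + 1 := by omega
    have e2 : k + (j + 1) + 1 - j = k + 2 := by omega
    have e3 : k + (j + 1) - (j + 1) = k := by omega
    have e4 : k + (j + 1) + 1 - (j + 1) = k + 1 := by omega
    rw [e1, e2] at h1
    rw [e3, e4]
    refine h1.congr ⟨gs N (k + 1), ?_⟩ ⟨0, by ring⟩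
    rw [gs_succ]
    ring

end res

section deg

variable {K : Type*} [Field K]

/-- the weight filtration as a Hahn series -/
noncomputable def thF (K : Type*) [Field K] (p q : ℤ) :
    Multiplicative (ℤ × ℤ) →* HahnSeries ℤ (Lau K) where
  toFun m := HahnSeries.single (-(wt p q m.toAdd)) (mon K m.toAdd)
  map_one' := by
    have e : wt p q (0 : ℤ × ℤ) = 0 := by simp [wt]
    rw [toAdd_one, e, mon_zero, neg_zero]
    rfl
  map_mul' m m' := by
    rw [HahnSeries.single_mul_single, toAdd_mul, wt_add, mon_mul, neg_add]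

noncomputable def th (K : Type*) [Field K] (p q : ℤ) : Lau K →+* HahnSeries ℤ (Lau K) :=
  AddMonoidAlgebra.liftNCRingHom ((HahnSeries.C : Lau K →+* HahnSeries ℤ (Lau K)).comp
    (algebraMap K (Lau K))) (thF K p q) (fun _ _ => Commute.all _ _)

theorem th_single (p q : ℤ) (m : ℤ × ℤ) (c : K) : th K p q (AddMonoidAlgebra.single m c) =
    HahnSeries.single (-(wt p q m)) (AddMonoidAlgebra.single m c) := by
  unfold th
  rw [AddMonoidAlgebra.liftNCRingHom_single]
  have h1 : (thF K p q) (Multiplicative.ofAdd m) = HahnSeries.single (-(wt p q m)) (mon K m) := rfl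
  rw [h1, RingHom.comp_apply, HahnSeries.C_apply, HahnSeries.single_mul_single, zero_add]
  congr 1
  unfold Pool.Agent.TH176.Nag.mon
  rw [AddMonoidAlgebra.coe_algebraMap]
  simp [AddMonoidAlgebra.single_mul_single]

theorem th_mon (p q : ℤ) (m : ℤ × ℤ) : th K p q (mon K m) = HahnSeries.single (-(wt p q m)) (mon K m) :=
  th_single p q m 1

theorem th_coeff (p q : ℤ) (f : Lau K) (D : ℤ) (m : ℤ × ℤ) :
    ((th K p q f).coeff D).coeff m = if D = -(wt p q m) then f.coeff m else 0 := by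
  classical
  induction f using AddMonoidAlgebra.induction_linear with
  | zero => simp
  | add f g hf hg =>
    rw [map_add, HahnSeries.coeff_add, AddMonoidAlgebra.coeff_add, AddMonoidAlgebra.coeff_add,
      Finsupp.add_apply, Finsupp.add_apply, hf, hg]
    split_ifs <;> simp
  | single m' c =>
    rw [th_single]
    by_cases h2 : m' = m
    · subst h2
      by_cases h3 : D = -(wt p q m')
      · rw [if_pos h3, h3, HahnSeries.coeff_single_same]
      · rw [if_neg h3, HahnSeries.coeff_single_of_ne h3]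
        simp
    · have h3 : ((AddMonoidAlgebra.single m' c : Lau K)).coeff m = 0 := by
        rw [AddMonoidAlgebra.coeff_single, Finsupp.single_apply, if_neg h2]
      rw [h3, ite_self]
      by_cases h4 : D = -(wt p q m')
      · rw [h4, HahnSeries.coeff_single_same, h3]
      · rw [HahnSeries.coeff_single_of_ne h4]
        simp

theorem wt_le (p q : ℤ) {f : Lau K} {m : ℤ × ℤ} (hm : f.coeff m ≠ 0) :
    wt p q m ≤ -(th K p q f).order := by
  have h1 : (th K p q f).coeff (-(wt p q m)) ≠ 0 := by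
    intro h
    have h2 := th_coeff p q f (-(wt p q m)) m
    rw [h, if_pos rfl] at h2
    exact hm h2.symm
  have h2 := HahnSeries.order_le_of_coeff_ne_zero h1
  linarith

instance : IsDomain (Lau K) := by
  have : NoZeroDivisors (Lau K) := inferInstance
  have : Nontrivial (Lau K) := inferInstance
  exact NoZeroDivisors.to_isDomain _

theorem single_ne (p q : ℤ) (m : ℤ × ℤ) : (HahnSeries.single (-(wt p q m)) (mon K m) :
    HahnSeries ℤ (Lau K)) ≠ 0 := by
  apply HahnSeries.single_ne_zero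
  unfold Pool.Agent.TH176.Nag.mon
  intro h
  have h2 := congrArg (fun f : Lau K => f.coeff m) h
  simp at h2

theorem th_mon_ne (p q : ℤ) (m : ℤ × ℤ) : th K p q (mon K m) ≠ 0 := by
  rw [th_mon]
  exact single_ne p q m

theorem th_mon_order (p q : ℤ) (m : ℤ × ℤ) : (th K p q (mon K m)).order = -(wt p q m) := by
  rw [th_mon]
  apply HahnSeries.order_single
  unfold Pool.Agent.TH176.Nag.mon
  intro h
  have h2 := congrArg (fun f : Lau K => f.coeff m) h
  simp at h2

/-- the image quadruple -/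
noncomputable def tq (K : Type*) [Field K] (N : ℕ) (t j : ℕ) :
    HahnSeries ℤ (Lau K) × HahnSeries ℤ (Lau K) × HahnSeries ℤ (Lau K) × HahnSeries ℤ (Lau K) :=
  (th K (gs N t) (gs N (t + 1)) ((stp N)^[j] (zL K N)).1,
    th K (gs N t) (gs N (t + 1)) ((stp N)^[j] (zL K N)).2.1,
    th K (gs N t) (gs N (t + 1)) ((stp N)^[j] (zL K N)).2.2.1,
    th K (gs N t) (gs N (t + 1)) ((stp N)^[j] (zL K N)).2.2.2)

theorem tq_succ (N t j : ℕ) : tq K N t (j + 1) = stp N (tq K N t j) := by
  unfold tq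
  rw [Function.iterate_succ_apply', map_stp]

theorem tq_rel {N : ℕ} (hN : 1 ≤ N) (t j : ℕ) : Rel N (tq K N t j) := by
  have h := (zL_rel K N).iter hN j
  obtain ⟨h1, h2⟩ := h
  have e1 := congrArg (th K (gs N t) (gs N (t + 1))) h1
  have e2 := congrArg (th K (gs N t) (gs N (t + 1))) h2
  simp only [map_mul, map_add, map_one, map_pow] at e1 e2
  exact ⟨e1, e2⟩

theorem ord_iter {N : ℕ} (hN : 2 ≤ N) (t : ℕ) (j : ℕ) (hj : j ≤ t) :
    ((tq K N t j).2.1 ≠ 0 ∧ (tq K N t j).2.1.order = -(gs N (t - j))) ∧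
    ((tq K N t j).2.2.1 ≠ 0 ∧ (tq K N t j).2.2.1.order = -(gs N (t + 1 - j))) ∧
    (j + 1 ≤ t → (tq K N t j).1 ≠ 0 ∧ (tq K N t j).1.order = -(gs N (t - 1 - j))) := by
  have hNZ : (2 : ℤ) ≤ N := by exact_mod_cast hN
  induction j with
  | zero =>
    refine ⟨⟨?_, ?_⟩, ⟨?_, ?_⟩, fun h => ?_⟩
    · exact th_mon_ne _ _ _
    · have h := th_mon_order (K := K) (gs N t) (gs N (t + 1)) (1, 0)
      simp only [wt, one_mul, zero_mul, add_zero] at h
      exact h
    · exact th_mon_ne _ _ _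
    · have h := th_mon_order (K := K) (gs N t) (gs N (t + 1)) (0, 1)
      simp only [wt, one_mul, zero_mul, zero_add] at h
      exact h
    · obtain ⟨k, rfl⟩ : ∃ k, t = k + 1 := ⟨t - 1, by omega⟩
      have e1 : k + 1 - 1 - 0 = k := by omega
      rw [e1]
      have e2 : (tq K N (k + 1) 0).1 = th K (gs N (k + 1)) (gs N (k + 1 + 1)) (mon K (0, -1)) *
          (1 + th K (gs N (k + 1)) (gs N (k + 1 + 1)) (mon K ((N : ℤ), 0))) := by
        unfold tq zL
        simp only [Function.iterate_zero, id_eq, map_mul, map_add, map_one]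
      rw [e2]
      have e3 := th_mon_order (K := K) (gs N (k + 1)) (gs N (k + 1 + 1)) ((N : ℤ), 0)
      have e4 := th_mon_order (K := K) (gs N (k + 1)) (gs N (k + 1 + 1)) (0, -1)
      have e5 := th_mon_ne (K := K) (gs N (k + 1)) (gs N (k + 1 + 1)) ((N : ℤ), 0)
      have e6 := th_mon_ne (K := K) (gs N (k + 1)) (gs N (k + 1 + 1)) (0, -1)
      have hpos := gs_mono hNZ (k + 1)
      have e7 : (th K (gs N (k + 1)) (gs N (k + 1 + 1)) (mon K ((N : ℤ), 0))).order < 0 := by
        rw [e3]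
        simp only [wt, zero_mul, add_zero]
        nlinarith [hpos.1]
      obtain ⟨h8, h9⟩ := order_one_add e5 e7
      refine ⟨mul_ne_zero e6 h8, ?_⟩
      rw [HahnSeries.order_mul e6 h8, h9, e3, e4]
      simp only [wt]
      have := gs_succ N k
      linarith
  | succ j ih =>
    obtain ⟨h1, h2, h3⟩ := ih (by omega)
    obtain ⟨h4, h5⟩ := h3 (by omega)
    rw [tq_succ]
    refine ⟨⟨h4, ?_⟩, ⟨h1.1, ?_⟩, fun h => ?_⟩
    · have e : t - (j + 1) = t - 1 - j := by omega
      rw [e]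
      exact h5
    · have e : t + 1 - (j + 1) = t - j := by omega
      rw [e]
      exact h1.2
    · obtain ⟨k, rfl⟩ : ∃ k, t = k + (j + 2) := ⟨t - (j + 2), by omega⟩
      have e1 : k + (j + 2) - 1 - j = k + 1 := by omega
      have e2 : k + (j + 2) - j = k + 2 := by omega
      have e3 : k + (j + 2) - 1 - (j + 1) = k := by omega
      rw [e1] at h5
      rw [e2] at h1
      rw [e3]
      have hpos := gs_mono hNZ (k + 1)
      obtain ⟨h6, h7⟩ := order_step (by omega) (tq_rel (K := K) (by omega : 1 ≤ N) (k + (j + 2)) j) h4 h1.1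
        (by rw [h5]; linarith [hpos.1])
      refine ⟨h6, ?_⟩
      rw [h7, h5, h1.2, gs_succ]
      ring

theorem supp_s0 {K : Type*} [Field K] [CharZero K] {N : ℕ} (hN : 3 ≤ N) (t : ℕ) :
    ∀ m ∈ (s0 N t (zL K N)).coeff.support, m.1 * gs N t + m.2 * gs N (t + 1) ≤ 1 ∧
      (N : ℤ) ∣ (1 - (m.1 * gs N t + m.2 * gs N (t + 1))) := by
  intro m hm
  rw [Finsupp.mem_support_iff] at hm
  have h1 := (res_iter (K := K) (by omega : 1 ≤ N) t t le_rfl).2.1 m hm
  have h2 := (ord_iter (K := K) (by omega : 2 ≤ N) t t le_rfl).1.2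
  have h3 := wt_le (gs N t) (gs N (t + 1)) hm
  rw [Nat.sub_self] at h1 h2
  refine ⟨?_, h1⟩
  have h4 : (th K (gs N t) (gs N (t + 1)) (s0 N t (zL K N))).order = -1 := h2
  rw [h4, neg_neg] at h3
  exact h3

theorem supp_s1 {K : Type*} [Field K] [CharZero K] {N : ℕ} (hN : 3 ≤ N) (t : ℕ) :
    ∀ m ∈ (s1 N t (zL K N)).coeff.support, m.1 * gs N t + m.2 * gs N (t + 1) ≤ 1 ∧
      (N : ℤ) ∣ (1 - (m.1 * gs N t + m.2 * gs N (t + 1))) := by
  intro m hm
  rw [Finsupp.mem_support_iff] at hm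
  have h1 := (res_iter (K := K) (by omega : 1 ≤ N) t t le_rfl).2.2.1 m hm
  have h2 := (ord_iter (K := K) (by omega : 2 ≤ N) t t le_rfl).2.1.2
  have h3 := wt_le (gs N t) (gs N (t + 1)) hm
  have e : t + 1 - t = 1 := by omega
  rw [e] at h1 h2
  refine ⟨?_, h1⟩
  have h4 : (th K (gs N t) (gs N (t + 1)) (s1 N t (zL K N))).order = -1 := h2
  rw [h4, neg_neg] at h3
  exact h3

theorem supp_s2 {K : Type*} [Field K] [CharZero K] {N : ℕ} (hN : 3 ≤ N) (t : ℕ) :
    ∀ m ∈ (s2 N t (zL K N)).coeff.support, m.1 * gs N t + m.2 * gs N (t + 1) ≤ N - 2 ∧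
      (N : ℤ) ∣ (N - 2 - (m.1 * gs N t + m.2 * gs N (t + 1))) := by
  intro m hm
  rw [Finsupp.mem_support_iff] at hm
  have e : t + 1 - t = 1 := by omega
  constructor
  · obtain ⟨h1, h2, -⟩ := ord_iter (K := K) (by omega : 2 ≤ N) t t le_rfl
    rw [Nat.sub_self] at h1
    rw [e] at h2
    set θ := th K (gs N t) (gs N (t + 1)) with hθ
    have hs0 : θ (s0 N t (zL K N)) ≠ 0 ∧ (θ (s0 N t (zL K N))).order = -1 := h1
    have hs1 : θ (s1 N t (zL K N)) ≠ 0 ∧ (θ (s1 N t (zL K N))).order = -1 := h2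
    have h3 := wt_le (gs N t) (gs N (t + 1)) hm
    rw [← hθ] at h3
    have hne : θ (s2 N t (zL K N)) ≠ 0 := by
      intro h
      have h4 := th_coeff (gs N t) (gs N (t + 1)) (s2 N t (zL K N))
        (-(wt (gs N t) (gs N (t + 1)) m)) m
      rw [← hθ, h, if_pos rfl] at h4
      exact hm h4.symm
    have h4 := congrArg θ ((zL_rel K N).s012 (by omega : 1 ≤ N) t)
    simp only [map_mul, map_add, map_one, map_pow] at h4
    have h5 : (θ (s0 N t (zL K N)) * θ (s1 N t (zL K N)) * θ (s2 N t (zL K N))).order =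
        -1 + -1 + (θ (s2 N t (zL K N))).order := by
      rw [HahnSeries.order_mul (mul_ne_zero hs0.1 hs1.1) hne, HahnSeries.order_mul hs0.1 hs1.1,
        hs0.2, hs1.2]
    have h6 : -(N : ℤ) ≤ (1 + θ (s0 N t (zL K N)) ^ N + θ (s1 N t (zL K N)) ^ N).order := by
      have hprod : (1 + θ (s0 N t (zL K N)) ^ N + θ (s1 N t (zL K N)) ^ N) ≠ 0 := by
        rw [← h4]
        exact mul_ne_zero (mul_ne_zero hs0.1 hs1.1) hne
      have a1 : (θ (s0 N t (zL K N)) ^ N).order = -(N : ℤ) := by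
        rw [HahnSeries.order_pow, hs0.2]
        simp
      have a2 : (θ (s1 N t (zL K N)) ^ N).order = -(N : ℤ) := by
        rw [HahnSeries.order_pow, hs1.2]
        simp
      by_contra hc
      push Not at hc
      have hcoeff := HahnSeries.coeff_order_eq_zero.not.2 hprod
      apply hcoeff
      rw [HahnSeries.coeff_add, HahnSeries.coeff_add]
      set D := (1 + θ (s0 N t (zL K N)) ^ N + θ (s1 N t (zL K N)) ^ N).order
      have b1 : (1 : HahnSeries ℤ (Lau K)).coeff D = 0 := by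
        apply HahnSeries.coeff_eq_zero_of_lt_order
        rw [HahnSeries.order_one]
        have : (0 : ℤ) ≤ N := Int.natCast_nonneg N
        linarith
      have b2 : (θ (s0 N t (zL K N)) ^ N).coeff D = 0 := by
        apply HahnSeries.coeff_eq_zero_of_lt_order
        rw [a1]
        exact hc
      have b3 : (θ (s1 N t (zL K N)) ^ N).coeff D = 0 := by
        apply HahnSeries.coeff_eq_zero_of_lt_order
        rw [a2]
        exact hc
      rw [b1, b2, b3, add_zero, add_zero]
    rw [← h4, h5] at h6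
    have h7 : m.1 * gs N t + m.2 * gs N (t + 1) ≤ -(θ (s2 N t (zL K N))).order := h3
    linarith
  · have h1 := res_iter (K := K) (by omega : 1 ≤ N) t t le_rfl
    rw [Nat.sub_self, e] at h1
    obtain ⟨r0, r1, r2, r3⟩ := h1
    have h2 : Res (N : ℤ) (gs N t) (gs N (t + 1)) (s2 N t (zL K N)) (N - 2) := by
      unfold s2
      apply Res.sub
      · exact (r0.mul r3).congr ⟨1, by norm_num [gs]⟩
      · refine ((r1.mul r2).pow (N - 1)).congr ⟨-1, ?_⟩
        have h5 : ((N - 1 : ℕ) : ℤ) = (N : ℤ) - 1 := by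
          push_cast [Nat.cast_sub (by omega : 1 ≤ N)]
          ring
        rw [h5]
        norm_num [gs]
        ring
    exact h2 m hm

end deg

end Pool.Agent.TH819.NagD
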